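import Mathlib

/-!
# A left N-essential ring that is not right N-essential

The ring has 16 elements: it is the four-dimensional algebra over the field with two elements
with basis `1, a, b, q` in which `a * q = b`, `q * q = a` and all other products of two of
`a, b, q` vanish. Its nucleus is the span of `1, a, b`.
-/

namespace Pool.Agent.Results.MP_0af3ab_al.LeftNotRight

/-- The associative center (nucleus) of a unital, not necessarily associative ring: the elements
`x` with `(x, a, b) = (a, x, b) = (a, b, x) = 0` for all `a, b`. -/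
def nucleus (R : Type*) [NonAssocRing R] : Set R :=
  {x | ∀ a b : R, associator x a b = 0 ∧ associator a x b = 0 ∧ associator a b x = 0}

/-- `R` is left N-essential: `N(R) r ∩ N(R) ≠ 0` for every nonzero `r`. -/
def LeftNEssential (R : Type*) [NonAssocRing R] : Prop :=
  ∀ r : R, r ≠ 0 → ∃ x ∈ nucleus R, x * r ∈ nucleus R ∧ x * r ≠ 0

/-- `R` is right N-essential: `r N(R) ∩ N(R) ≠ 0` for every nonzero `r`. -/
def RightNEssential (R : Type*) [NonAssocRing R] : Prop :=
  ∀ r : R, r ≠ 0 → ∃ x ∈ nucleus R, r * x ∈ nucleus R ∧ r * x ≠ 0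

/-- The underlying type of the example: coordinates with respect to `1, a, b, q`. -/
@[ext] structure Ex where
  /-- coefficient of `1` -/
  e : ZMod 2
  /-- coefficient of `a` -/
  a : ZMod 2
  /-- coefficient of `b` -/
  b : ZMod 2
  /-- coefficient of `q` -/
  q : ZMod 2

namespace Ex

instance : Zero Ex := ⟨⟨0, 0, 0, 0⟩⟩
instance : One Ex := ⟨⟨1, 0, 0, 0⟩⟩
instance : Add Ex := ⟨fun x y => ⟨x.e + y.e, x.a + y.a, x.b + y.b, x.q + y.q⟩⟩
instance : Neg Ex := ⟨fun x => ⟨-x.e, -x.a, -x.b, -x.q⟩⟩
instance : Mul Ex := ⟨fun x y =>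
  ⟨x.e * y.e, x.e * y.a + x.a * y.e + x.q * y.q, x.e * y.b + x.b * y.e + x.a * y.q,
    x.e * y.q + x.q * y.e⟩⟩

@[simp] theorem zero_e : (0 : Ex).e = 0 := rfl
@[simp] theorem zero_a : (0 : Ex).a = 0 := rfl
@[simp] theorem zero_b : (0 : Ex).b = 0 := rfl
@[simp] theorem zero_q : (0 : Ex).q = 0 := rfl
@[simp] theorem one_e : (1 : Ex).e = 1 := rfl
@[simp] theorem one_a : (1 : Ex).a = 0 := rfl
@[simp] theorem one_b : (1 : Ex).b = 0 := rfl
@[simp] theorem one_q : (1 : Ex).q = 0 := rfl
@[simp] theorem add_e (x y : Ex) : (x + y).e = x.e + y.e := rfl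
@[simp] theorem add_a (x y : Ex) : (x + y).a = x.a + y.a := rfl
@[simp] theorem add_b (x y : Ex) : (x + y).b = x.b + y.b := rfl
@[simp] theorem add_q (x y : Ex) : (x + y).q = x.q + y.q := rfl
@[simp] theorem neg_e (x : Ex) : (-x).e = -x.e := rfl
@[simp] theorem neg_a (x : Ex) : (-x).a = -x.a := rfl
@[simp] theorem neg_b (x : Ex) : (-x).b = -x.b := rfl
@[simp] theorem neg_q (x : Ex) : (-x).q = -x.q := rfl
@[simp] theorem mul_e (x y : Ex) : (x * y).e = x.e * y.e := rfl
@[simp] theorem mul_a (x y : Ex) : (x * y).a = x.e * y.a + x.a * y.e + x.q * y.q := rfl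
@[simp] theorem mul_b (x y : Ex) : (x * y).b = x.e * y.b + x.b * y.e + x.a * y.q := rfl
@[simp] theorem mul_q (x y : Ex) : (x * y).q = x.e * y.q + x.q * y.e := rfl

instance : AddCommGroup Ex where
  add_assoc x y z := by ext <;> simp [add_assoc]
  zero_add x := by ext <;> simp
  add_zero x := by ext <;> simp
  nsmul := nsmulRec
  zsmul := zsmulRec
  neg_add_cancel x := by ext <;> simp <;> exact CharTwo.add_self_eq_zero _
  add_comm x y := by ext <;> simp [add_comm]

instance : NonAssocRing Ex where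
  left_distrib x y z := by ext <;> simp <;> ring
  right_distrib x y z := by ext <;> simp <;> ring
  zero_mul x := by ext <;> simp
  mul_zero x := by ext <;> simp
  one_mul x := by ext <;> simp
  mul_one x := by ext <;> simp

@[simp] theorem sub_e (x y : Ex) : (x - y).e = x.e - y.e := by
  rw [sub_eq_add_neg]; simp [sub_eq_add_neg]
@[simp] theorem sub_a (x y : Ex) : (x - y).a = x.a - y.a := by
  rw [sub_eq_add_neg]; simp [sub_eq_add_neg]
@[simp] theorem sub_b (x y : Ex) : (x - y).b = x.b - y.b := by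
  rw [sub_eq_add_neg]; simp [sub_eq_add_neg]
@[simp] theorem sub_q (x y : Ex) : (x - y).q = x.q - y.q := by
  rw [sub_eq_add_neg]; simp [sub_eq_add_neg]

theorem mem_nucleus_iff (x : Ex) : x ∈ nucleus Ex ↔ x.q = 0 := by
  constructor
  · intro h
    have h1 := (h ⟨0, 0, 0, 1⟩ ⟨0, 0, 0, 1⟩).1
    have h2 := congrArg Ex.b h1
    simpa [associator_apply] using h2
  · intro h a b
    refine ⟨?_, ?_, ?_⟩ <;> ext <;> simp [associator_apply, h] <;> ring

theorem left : LeftNEssential Ex := by
  intro r hr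
  by_cases hq : r.q = 0
  · exact ⟨1, (mem_nucleus_iff 1).2 rfl, by simpa [mem_nucleus_iff] using hq, by simpa using hr⟩
  · refine ⟨⟨0, 1, 0, 0⟩, (mem_nucleus_iff _).2 rfl, ?_, ?_⟩
    · rw [mem_nucleus_iff]; simp
    · intro h
      have h2 := congrArg Ex.b h
      simp at h2
      exact hq h2

theorem not_right : ¬ RightNEssential Ex := by
  intro h
  obtain ⟨x, hx, h1, h2⟩ := h ⟨0, 0, 0, 1⟩ (fun h => by
    have := congrArg Ex.q h
    simp at this)
  rw [mem_nucleus_iff] at hx h1
  apply h2
  simp at h1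
  ext <;> simp [hx, h1]

end Ex

/-- There is a unital (not necessarily associative) ring that is left N-essential but not right
N-essential. -/
theorem result : ∃ (R : Type) (_ : NonAssocRing R), LeftNEssential R ∧ ¬ RightNEssential R :=
  ⟨Ex, inferInstance, Ex.left, Ex.not_right⟩

end Pool.Agent.Results.MP_0af3ab_al.LeftNotRight
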